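import Mathlib

/-!
# The structure `⟨ℕ_{>0}; +, x * 2 ^ y, ≤, 1⟩` is not automatic
-/

set_option autoImplicit false

namespace Pool.Agent.Results.MP_34afd1_lc.NotAutomatic

open Finset

/-- The convolution of a tuple of words over `A`: the word over `(A ∪ {□})^k` (the padding symbol `□` is
`none`) whose length is the maximal length of the words `w i` and whose `j`-th letter is the tuple of the
`j`-th letters of the words `w i`, where `□` stands at the positions after the end of a word. -/
def conv {A : Type} {k : ℕ} (w : Fin k → List A) : List (Fin k → Option A) :=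
  List.ofFn (n := univ.sup fun i => (w i).length) fun j i => (w i)[(j : ℕ)]?

/-- A `k`-ary relation on words is automatic if the set of the convolutions of its tuples is regular. -/
def AutRel {A : Type} {k : ℕ} (R : Set (Fin k → List A)) : Prop :=
  Language.IsRegular (conv '' R : Set (List (Fin k → Option A)))

/-- The graph of a binary function on a set `D` of words, as a ternary relation on words. -/
def graph {A : Type} {D : Set (List A)} (f : D → D → D) : Set (Fin 3 → List A) :=
  {w | ∃ x y : D, w = ![(x : List A), (y : List A), (f x y : List A)]}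

/-- The structure `⟨ℕ_{>0}; +, x * 2 ^ y, ≤, 1⟩` is automatic: it is isomorphic, by a bijection `ν` from
a regular set `D` of words over a finite alphabet `A` onto the positive integers, to a structure on `D` in
which the graphs of both functions, the order relation and the constant are automatic. -/
def Automatic : Prop :=
  ∃ (A : Type) (_ : Fintype A) (D : Set (List A)) (ν : D ≃ ℕ+),
    Language.IsRegular (D : Set (List A)) ∧
    AutRel (graph fun x y : D => ν.symm (ν x + ν y)) ∧
    AutRel (graph fun x y : D => ν.symm (ν x * 2 ^ (ν y : ℕ))) ∧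
    AutRel {w : Fin 2 → List A | ∃ x y : D, ν x ≤ ν y ∧ w = ![(x : List A), (y : List A)]} ∧
    AutRel {w : Fin 1 → List A | w = ![((ν.symm 1 : D) : List A)]}

lemma conv_get {A : Type} {k : ℕ} (w : Fin k → List A) (j : ℕ) (i : Fin k) :
    ((conv w)[j]?).bind (fun a => a i) = (w i)[j]? := by
  unfold conv
  by_cases h : j < univ.sup fun i => (w i).length
  · simp [h]
  · have h2 : (w i).length ≤ j := by
      have : (w i).length ≤ univ.sup fun i => (w i).length :=
        Finset.le_sup (f := fun i => (w i).length) (mem_univ i)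
      omega
    rw [List.getElem?_eq_none (by simpa using h), List.getElem?_eq_none h2]
    rfl

lemma length_conv {A : Type} {k : ℕ} (w : Fin k → List A) :
    (conv w).length = univ.sup fun i => (w i).length := by
  unfold conv
  simp

/-- A function with an automatic graph increases the length by at most a constant. -/
lemma length_bound {A : Type} {D : Set (List A)} (f : D → D → D) (h : AutRel (graph f)) :
    ∃ m : ℕ, ∀ x y : D, ((f x y : D) : List A).length ≤
      max (x : List A).length (y : List A).length + m := by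
  obtain ⟨σ, hσ, M, hM⟩ := h
  refine ⟨Fintype.card σ, fun x y => ?_⟩
  by_contra hcon
  push Not at hcon
  set z : List A := ((f x y : D) : List A) with hz
  set n₀ := max (x : List A).length (y : List A).length with hn₀
  set w : Fin 3 → List A := ![(x : List A), (y : List A), z] with hw
  have hwg : w ∈ graph f := ⟨x, y, rfl⟩
  have hlen : (conv w).length = z.length := by
    rw [length_conv]
    apply le_antisymm
    · apply Finset.sup_le
      intro i _
      fin_cases i
      · simp [hw]; omega
      · simp [hw]; omega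
      · simp [hw]
    · exact Finset.le_sup (f := fun i => (w i).length) (mem_univ (2 : Fin 3))
  -- two equal states
  obtain ⟨i, j, hij, hji⟩ : ∃ i j : Fin (Fintype.card σ + 1), i < j ∧
      M.eval ((conv w).take (n₀ + i)) = M.eval ((conv w).take (n₀ + j)) := by
    obtain ⟨i, j, hne, he⟩ := Fintype.exists_ne_map_eq_of_card_lt
      (fun i : Fin (Fintype.card σ + 1) => M.eval ((conv w).take (n₀ + i))) (by simp)
    rcases lt_or_gt_of_ne hne with h1 | h1
    · exact ⟨i, j, h1, he⟩
    · exact ⟨j, i, h1, he.symm⟩
  have hjz : n₀ + j ≤ z.length := by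
    have := j.2
    omega
  have hij' : (i : ℕ) < j := hij
  set c' := (conv w).take (n₀ + i) ++ (conv w).drop (n₀ + j) with hc'
  have hacc : c' ∈ M.accepts := by
    have h1 : conv w ∈ M.accepts := by
      rw [hM]
      exact ⟨w, hwg, rfl⟩
    have h2 : M.eval c' = M.eval (conv w) := by
      have h3 : conv w = (conv w).take (n₀ + j) ++ (conv w).drop (n₀ + j) :=
        (List.take_append_drop _ _).symm
      conv_rhs => rw [h3]
      rw [hc']
      unfold DFA.eval
      rw [DFA.evalFrom_of_append, DFA.evalFrom_of_append]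
      unfold DFA.eval at hji
      rw [hji]
    rw [DFA.mem_accepts] at h1 ⊢
    rw [h2]
    exact h1
  rw [hM] at hacc
  obtain ⟨w', ⟨x', y', hw'⟩, hcw⟩ := hacc
  have hget : ∀ k : ℕ, c'[k]? = if k < n₀ + i then (conv w)[k]? else (conv w)[k + (j - i)]? := by
    intro k
    rw [hc']
    have hl : ((conv w).take (n₀ + i)).length = n₀ + i := by
      rw [List.length_take, hlen]
      omega
    split_ifs with h1
    · rw [List.getElem?_append_left (by rw [hl]; exact h1), List.getElem?_take_of_lt h1]
    · rw [List.getElem?_append_right (by rw [hl]; omega), hl, List.getElem?_drop]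
      congr 1
      omega
  have hcomp : ∀ (e : Fin 3), (w e).length ≤ n₀ → w' e = w e := by
    intro e he
    apply List.ext_getElem?
    intro k
    rw [← conv_get w' k e, hcw, hget k]
    split_ifs with h1
    · rw [conv_get]
    · rw [conv_get, List.getElem?_eq_none (by omega), List.getElem?_eq_none (by omega)]
  have h0 : w' 0 = w 0 := hcomp 0 (by simp [hw, hn₀])
  have h1 : w' 1 = w 1 := hcomp 1 (by simp [hw, hn₀])
  have hx : x' = x := by
    apply Subtype.ext
    simpa [hw', hw] using h0
  have hy : y' = y := by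
    apply Subtype.ext
    simpa [hw', hw] using h1
  have h2 : w' 2 = z := by
    rw [hw', hx, hy]
    simp [hz]
  have h3 : (conv w').length < z.length := by
    rw [hcw, hc', List.length_append, List.length_take, List.length_drop, hlen]
    omega
  have h4 : z.length ≤ (conv w').length := by
    rw [length_conv, ← h2]
    exact Finset.le_sup (f := fun i => (w' i).length) (mem_univ (2 : Fin 3))
  omega

/-- `x * 2 ^ v` with odd `x` determines `x` and `v`. -/
lemma odd_inj {x x' v v' : ℕ+} (hx : Odd (x : ℕ)) (hx' : Odd (x' : ℕ))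
    (h : x * 2 ^ (v : ℕ) = x' * 2 ^ (v' : ℕ)) : x = x' ∧ v = v' := by
  have h1 : (x : ℕ) * 2 ^ (v : ℕ) = (x' : ℕ) * 2 ^ (v' : ℕ) := by
    have := congrArg (fun z : ℕ+ => (z : ℕ)) h
    simpa using this
  have aux : ∀ {a b c d : ℕ}, Odd a → a * 2 ^ c = b * 2 ^ d → d ≤ c := by
    intro a b c d ha he
    by_contra hcd
    push Not at hcd
    obtain ⟨e, rfl⟩ := Nat.exists_eq_add_of_lt hcd
    have h2 : a * 2 ^ c = (b * 2 ^ (e + 1)) * 2 ^ c := by
      rw [he]
      ring
    have h3 : a = b * 2 ^ (e + 1) := Nat.eq_of_mul_eq_mul_right (by positivity) h2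
    rw [h3, pow_succ, ← mul_assoc] at ha
    exact (Nat.not_odd_iff_even.2 (even_two.mul_left _)) ha
  have hv : (v : ℕ) = v' := le_antisymm (aux hx' h1.symm) (aux hx h1)
  have hv' : v = v' := PNat.coe_injective hv
  refine ⟨?_, hv'⟩
  rw [hv] at h1
  exact PNat.coe_injective (Nat.eq_of_mul_eq_mul_right (by positivity) h1)

/-- Words of length at most `N` over a finite alphabet. -/
lemma card_words {A : Type} [Fintype A] (N : ℕ) (S : Finset (List A)) (h : ∀ w ∈ S, w.length ≤ N) :
    S.card ≤ (Fintype.card A + 1) ^ N := by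
  classical
  have h1 : S.card ≤ Fintype.card (Fin N → Option A) := by
    rw [← Fintype.card_coe S]
    apply Fintype.card_le_of_injective (fun w : S => fun j : Fin N => (w.1)[(j : ℕ)]?)
    intro w w' hww
    apply Subtype.ext
    apply List.ext_getElem?
    intro k
    by_cases hk : k < N
    · exact congrFun hww ⟨k, hk⟩
    · have h2 := h w.1 w.2
      have h3 := h w'.1 w'.2
      rw [List.getElem?_eq_none (by omega), List.getElem?_eq_none (by omega)]
  simpa using h1

lemma arith (P Q : ℕ) : ∃ k : ℕ, P * k + Q < 2 ^ k := by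
  set t := 2 * P + Q + 1 with ht
  refine ⟨2 * t, ?_⟩
  have h1 : t + 1 ≤ 2 ^ t := Nat.lt_two_pow_self
  have h2 : (t + 1) * (t + 1) ≤ 2 ^ t * 2 ^ t := Nat.mul_le_mul h1 h1
  have h3 : (2 : ℕ) ^ (2 * t) = 2 ^ t * 2 ^ t := by rw [two_mul, pow_add]
  rw [h3]
  refine lt_of_lt_of_le ?_ h2
  nlinarith

/-- **The structure `⟨ℕ_{>0}; +, x * 2 ^ y, ≤, 1⟩` is not automatic.** -/
theorem result : ¬ Automatic := by
  rintro ⟨A, hA, D, ν, -, hadd, hexp, -, -⟩
  classical
  obtain ⟨m₁, h₁⟩ := length_bound _ hadd
  obtain ⟨m₂, h₂⟩ := length_bound _ hexp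
  set m := max m₁ m₂ with hm
  set c₀ := ((ν.symm 1 : D) : List A).length with hc₀
  set len : ℕ+ → ℕ := fun u => ((ν.symm u : D) : List A).length with hlen
  have hadd' : ∀ u v : ℕ+, len (u + v) ≤ max (len u) (len v) + m := by
    intro u v
    have := h₁ (ν.symm u) (ν.symm v)
    simp only [Equiv.apply_symm_apply] at this
    exact this.trans (Nat.add_le_add_left (le_max_left _ _) _)
  have hexp' : ∀ u v : ℕ+, len (u * 2 ^ (v : ℕ)) ≤ max (len u) (len v) + m := by
    intro u v
    have := h₂ (ν.symm u) (ν.symm v)
    simp only [Equiv.apply_symm_apply] at this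
    exact this.trans (Nat.add_le_add_left (le_max_right _ _) _)
  have hone : len 1 = c₀ := rfl
  -- finite sets of odd numbers with short names
  have key : ∀ k : ℕ, ∃ S : Finset ℕ+, (∀ u ∈ S, Odd (u : ℕ) ∧ len u ≤ c₀ + m * (2 * k + 2)) ∧
      2 ^ 2 ^ k ≤ S.card := by
    intro k
    induction k with
    | zero =>
      refine ⟨{1, 1 * 2 ^ ((1 : ℕ+) : ℕ) + 1}, ?_, ?_⟩
      · intro u hu
        rw [mem_insert, mem_singleton] at hu
        rcases hu with rfl | rfl
        · refine ⟨by simp, ?_⟩
          rw [hone]
          omega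
        · refine ⟨by decide, ?_⟩
          have e1 := hexp' 1 1
          have e2 := hadd' (1 * 2 ^ ((1 : ℕ+) : ℕ)) 1
          rw [hone] at e1 e2
          omega
      · rw [card_insert_of_notMem (by decide)]
        simp
    | succ k ih =>
      obtain ⟨S, hS, hc⟩ := ih
      refine ⟨(S ×ˢ S).image fun q : ℕ+ × ℕ+ => q.1 * 2 ^ (q.2 : ℕ) + 1, ?_, ?_⟩
      · intro u hu
        rw [mem_image] at hu
        obtain ⟨⟨x, v⟩, hxv, rfl⟩ := hu
        rw [mem_product] at hxv
        obtain ⟨hx, hv⟩ := hxv
        have e1 := (hS x hx).2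
        have e2 := (hS v hv).2
        have e3 := hexp' x v
        have e4 := hadd' (x * 2 ^ (v : ℕ)) 1
        rw [hone] at e4
        refine ⟨?_, ?_⟩
        · have hv0 : (v : ℕ) ≠ 0 := v.ne_zero
          have : Even ((x : ℕ) * 2 ^ (v : ℕ)) := (even_two.pow_of_ne_zero hv0).mul_left _
          simpa using this.add_one
        · have e5 : len (x * 2 ^ (v : ℕ)) ≤ c₀ + m * (2 * k + 2) + m := by
            omega
          have e6 : m * (2 * (k + 1) + 2) = m * (2 * k + 2) + m + m := by ring
          simp only
          omega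
      · rw [card_image_of_injOn, card_product]
        · calc 2 ^ 2 ^ (k + 1) = 2 ^ 2 ^ k * 2 ^ 2 ^ k := by rw [← pow_add, ← two_mul, pow_succ, mul_comm 2]
            _ ≤ S.card * S.card := Nat.mul_le_mul hc hc
        · rintro ⟨x, v⟩ hxv ⟨x', v'⟩ hxv' h
          rw [mem_coe, mem_product] at hxv hxv'
          have h1 : x * 2 ^ (v : ℕ) = x' * 2 ^ (v' : ℕ) := add_right_cancel h
          obtain ⟨rfl, rfl⟩ := odd_inj (hS x hxv.1).1 (hS x' hxv'.1).1 h1
          rfl
  have hcount : ∀ k : ℕ, 2 ^ 2 ^ k ≤ (Fintype.card A + 1) ^ (c₀ + m * (2 * k + 2)) := by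
    intro k
    obtain ⟨S, hS, hc⟩ := key k
    refine hc.trans ?_
    have h3 : (S.image fun u => ((ν.symm u : D) : List A)).card = S.card :=
      card_image_of_injective _ (Subtype.val_injective.comp ν.symm.injective)
    rw [← h3]
    apply card_words
    intro w hw
    rw [mem_image] at hw
    obtain ⟨u, hu, rfl⟩ := hw
    exact (hS u hu).2
  set B := Fintype.card A + 1 with hB
  obtain ⟨k, hk⟩ := arith (B * (2 * m)) (B * (c₀ + 2 * m))
  have h4 : (2 : ℕ) ^ 2 ^ k ≤ 2 ^ (B * (c₀ + m * (2 * k + 2))) := by
    refine (hcount k).trans ?_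
    rw [pow_mul]
    exact Nat.pow_le_pow_left Nat.lt_two_pow_self.le _
  have h5 : 2 ^ k ≤ B * (c₀ + m * (2 * k + 2)) := (Nat.pow_le_pow_iff_right (by norm_num)).1 h4
  have h6 : B * (c₀ + m * (2 * k + 2)) = B * (2 * m) * k + B * (c₀ + 2 * m) := by ring
  omega

end Pool.Agent.Results.MP_34afd1_lc.NotAutomatic
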